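import Pool.Agent.MP_86c931_ag.H56.RowsA

/-! The quantum Darboux lemma. -/

namespace Pool.Agent.MP_86c931_ag.H39

open Pool.Agent.MP_86c931_ag.H56
open scoped PowerSeries

variable {O C : Type} [CommRing O] [Algebra ℂ O] [Ring C] [Algebra ℂ⟦X⟧ C] {Q : PQ O C}
  {β : O → O → O}

theorem ccr_two (hQ : Q.Induces β) {τ : Type} {z : τ → O} {J : τ → τ → ℂ}
    (hJ : ∀ s t, β (z s) (z t) = algebraMap ℂ O (J s t)) {w : τ → C} (hz : ∀ s, Q.π (w s) = z s) :
    CCR J w 2 := by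
  intro s t
  obtain ⟨c, hc⟩ := Q.comm_dv (w s) (w t)
  have h1 := hQ _ _ _ hc
  rw [hz, hz, hJ] at h1
  have h2 : Q.π (c - algebraMap ℂ⟦X⟧ C (PowerSeries.C (J s t))) = 0 := by
    rw [map_sub, h1, Q.π_alg, PowerSeries.constantCoeff_C, sub_self]
  have h3 := (Q.dv_one h2).hb_smul
  rwa [smul_sub, ← hc, Algebra.smul_def, ← map_mul] at h3

theorem ccr_step (tf : TF C) (hQ : Q.Induces β) (ha : ∀ f g, β f g = -β g f)
    {O' : Subalgebra ℂ O} {C' : Subalgebra ℂ⟦X⟧ C} (hS : Q.Sub O' C')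
    {τ : Type} {z : τ → O} {J : τ → τ → ℂ}
    (hJ : ∀ s t, β (z s) (z t) = algebraMap ℂ O (J s t))
    (hP : ∀ g : τ → τ → O, (∀ s t, g s t ∈ O') → (∀ s t, g s t = -g t s) →
      (∀ s t u, β (z s) (g t u) + β (z t) (g u s) + β (z u) (g s t) = 0) →
      ∃ b : τ → O, (∀ s, b s ∈ O') ∧ ∀ s t, β (z s) (b t) - β (z t) (b s) = g s t)
    {w : τ → C} (hw : ∀ s, w s ∈ C') (hz : ∀ s, Q.π (w s) = z s) {m : ℕ} (hm : 1 ≤ m)
    (h : CCR J w (m + 1)) :
    ∃ w' : τ → C, (∀ s, w' s ∈ C') ∧ (∀ s, Dv m (w' s - w s)) ∧ CCR J w' (m + 2) := by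
  have h1 : ∀ s t, ∃ d ∈ C', w s * w t - w t * w s -
      algebraMap ℂ⟦X⟧ C (hb * PowerSeries.C (J s t)) = hb ^ (m + 1) • d := fun s t =>
    hS.dv_tf tf (C'.sub_mem (C'.sub_mem (C'.mul_mem (hw s) (hw t)) (C'.mul_mem (hw t) (hw s)))
      (C'.algebraMap_mem _)) (h s t)
  choose g hg1 hg2 using h1
  have hanti : ∀ s t, Q.π (g s t) = -Q.π (g t s) := by
    intro s t
    rcases subsingleton_or_nontrivial O with hO | hO
    · exact Subsingleton.elim _ _
    · have h2 : J s t = -J t s := by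
        apply (algebraMap ℂ O).injective
        rw [map_neg, ← hJ, ← hJ, ha]
      have h3 : g s t + g t s = 0 := by
        apply tf.pow (m + 1)
        rw [smul_add, ← hg2, ← hg2, h2, map_neg, mul_neg, map_neg]
        abel
      rw [eq_neg_iff_add_eq_zero, ← map_add, h3, map_zero]
  have hclosed : ∀ s t u, β (z s) (Q.π (g t u)) + β (z t) (Q.π (g u s)) +
      β (z u) (Q.π (g s t)) = 0 := by
    have h2 : ∀ s t u, ∃ e, Q.π e = β (z s) (Q.π (g t u)) ∧ hb ^ (m + 2) • e =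
        w s * (w t * w u - w u * w t) - (w t * w u - w u * w t) * w s := by
      intro s t u
      obtain ⟨e, he⟩ := Q.comm_dv (w s) (g t u)
      refine ⟨e, by rw [hQ _ _ _ he, hz], ?_⟩
      rw [pow_succ, mul_smul, ← he, sub_eq_iff_eq_add.1 (hg2 t u), mul_add, add_mul,
        ← Algebra.commutes, smul_sub, mul_smul_comm, smul_mul_assoc]
      abel
    intro s t u
    obtain ⟨e1, h11, h12⟩ := h2 s t u
    obtain ⟨e2, h21, h22⟩ := h2 t u s
    obtain ⟨e3, h31, h32⟩ := h2 u s t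
    have h3 : e1 + e2 + e3 = 0 := by
      apply tf.pow (m + 2)
      rw [smul_add, smul_add, h12, h22, h32]
      noncomm_ring
    rw [← h11, ← h21, ← h31, ← map_add, ← map_add, h3, map_zero]
  obtain ⟨b, hb1, hb2⟩ := hP (fun s t => Q.π (g s t)) (fun s t => hS.map_mem _ (hg1 s t))
    hanti hclosed
  choose c hc1 hc2 using fun s => hS.surj (b s) (hb1 s)
  refine ⟨fun s => w s - hb ^ m • c s, fun s => C'.sub_mem (hw s) (C'.smul_mem (hc1 s) _),
    fun s => ?_, fun s t => ?_⟩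
  · rw [sub_sub_cancel_left]
    exact (Dv.pow_smul m _).neg
  · obtain ⟨c1, h11⟩ := Q.comm_dv (w s) (c t)
    obtain ⟨c2, h21⟩ := Q.comm_dv (w t) (c s)
    obtain ⟨c3, h31⟩ := Q.comm_dv (c s) (c t)
    have h4 : Q.π (g s t - c1 + c2) = 0 := by
      rw [map_add, map_sub, hQ _ _ _ h11, hQ _ _ _ h21, hz, hz, hc2, hc2, ← hb2]
      ring
    obtain ⟨d, hd⟩ := Q.ker _ h4
    have h5 : (w s - hb ^ m • c s) * (w t - hb ^ m • c t) -
        (w t - hb ^ m • c t) * (w s - hb ^ m • c s) -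
        algebraMap ℂ⟦X⟧ C (hb * PowerSeries.C (J s t)) =
        hb ^ (m + 2) • d + hb ^ (m + m + 1) • c3 := by
      have e1 : hb ^ (m + 2) • d = hb ^ (m + 1) • g s t - hb ^ m • hb • c1 + hb ^ m • hb • c2 := by
        rw [pow_succ, mul_smul, ← hd, smul_add, smul_sub, pow_succ, mul_smul, mul_smul, mul_smul]
      have e2 : hb ^ (m + m + 1) • c3 = hb ^ m • hb ^ m • hb • c3 := by
        rw [pow_succ, pow_add, mul_smul, mul_smul]
      rw [e1, e2, ← hg2, ← h11, ← h21, ← h31]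
      simp only [mul_sub, sub_mul, smul_sub, mul_smul_comm, smul_mul_assoc]
      abel
    rw [h5]
    exact (Dv.pow_smul _ _).add ((Dv.pow_smul _ _).mono (by omega))

theorem rowDARB : RowDARB := by
  intro O C _ _ _ _ Q β tf hQ ha O' C' hS τ z J hJ hP w hw hz
  refine ⟨ccr_two hQ hJ hz, fun m N hm h => ?_⟩
  have key : ∀ k : ℕ, ∃ w' : τ → C, (∀ s, w' s ∈ C') ∧ (∀ s, Dv m (w' s - w s)) ∧
      CCR J w' (m + k + 1) := by
    intro k
    induction k with
    | zero => exact ⟨w, hw, fun s => by rw [sub_self]; exact Dv.zero m, h⟩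
    | succ k ih =>
      obtain ⟨w1, h1, h2, h3⟩ := ih
      have hz1 : ∀ s, Q.π (w1 s) = z s := by
        intro s
        have := Q.π_dv (n := 0) ((h2 s).mono hm)
        rwa [map_sub, hz, sub_eq_zero] at this
      obtain ⟨w2, h4, h5, h6⟩ := ccr_step tf hQ ha hS hJ hP h1 hz1 (m := m + k) (by omega) h3
      refine ⟨w2, h4, fun s => ?_, h6⟩
      have := ((h5 s).mono (Nat.le_add_right m k)).add (h2 s)
      rwa [sub_add_sub_cancel] at this
  obtain ⟨w', h1, h2, h3⟩ := key N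
  exact ⟨w', h1, h2, fun s t => (h3 s t).mono (by omega)⟩

end Pool.Agent.MP_86c931_ag.H39
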