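import Pool.Agent.MP_86c931_ag.H56.RowsA

/-! Vanishing of the zeroth Hochschild homology, and extension of the induced bracket. -/

namespace Pool.Agent.MP_86c931_ag.H39

open Pool.Agent.MP_86c931_ag.H56
open scoped PowerSeries TensorProduct

section HH

variable {R A : Type} [CommRing R] [Algebra ℂ R] [Ring A] [Algebra ℂ⟦X⟧ A] {Q : PQ R A}
  {β : R → R → R}

theorem hh_one_step (hs : Function.Surjective Q.π) (hQ : Q.Induces β) {ι : Type} [Fintype ι]
    (x : ι → A) (hu : ∀ f, ∃ (c : ℂ) (g : ι → R), f = algebraMap ℂ R c + ∑ i, β (Q.π (x i)) (g i))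
    (a : A) : ∃ (c : ℂ) (b : ι → A) (a' : A), hb • a =
      hb • (PowerSeries.C c : ℂ⟦X⟧) • (1 : A) + ∑ i, (x i * b i - b i * x i) + hb • hb • a' := by
  obtain ⟨c, g, hg⟩ := hu (Q.π a)
  choose b hb1 using fun i => hs (g i)
  choose e he using fun i => Q.comm_dv (x i) (b i)
  have h1 : Q.π (a - (PowerSeries.C c : ℂ⟦X⟧) • (1 : A) - ∑ i, e i) = 0 := by
    rw [map_sub, map_sub, map_sum, hg, Q.π_smul, map_one, PowerSeries.constantCoeff_C,
      Algebra.algebraMap_eq_smul_one]
    simp only [fun i => hQ _ _ _ (he i), hb1]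
    ring
  obtain ⟨d, hd⟩ := Q.ker _ h1
  refine ⟨c, b, d, ?_⟩
  simp only [he]
  rw [← hd, ← Finset.smul_sum, smul_sub, smul_sub]
  abel

theorem hh_comm (hc : SeqComplete A) (hs : Function.Surjective Q.π) (hQ : Q.Induces β)
    {ι : Type} [Fintype ι] (x : ι → A)
    (hu : ∀ f, ∃ (c : ℂ) (g : ι → R), f = algebraMap ℂ R c + ∑ i, β (Q.π (x i)) (g i))
    (a : A) : ∃ c : ℂ⟦X⟧, hb • a - hb • c • (1 : A) ∈ comms (Set.univ : Set A) := by
  choose γ b α h using hh_one_step hs hQ x hu
  let u : ι → ℕ → A := fun i n => ∑ k ∈ Finset.range n, hb ^ k • b (α^[k] a) i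
  let p : ℕ → ℂ⟦X⟧ := fun n => ∑ k ∈ Finset.range n, hb ^ k * PowerSeries.C (γ (α^[k] a))
  have hu' : ∀ n, hb • a = hb • p n • (1 : A) + ∑ i, (x i * u i n - u i n * x i) +
      hb ^ n • hb • α^[n] a := by
    intro n
    induction n with
    | zero => simp [u, p]
    | succ n ih =>
      rw [ih, h (α^[n] a)]
      simp only [u, p, Finset.sum_range_succ, mul_add, add_mul, mul_smul_comm, smul_mul_assoc,
        Function.iterate_succ_apply', smul_add, smul_sub, pow_succ, mul_smul, add_smul,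
        Finset.sum_add_distrib, Finset.sum_sub_distrib, Finset.smul_sum,
        smul_comm hb (hb ^ n)]
      abel
  have h1 : ∀ i, ∃ t, ∀ n, Dv n (t - u i n) := fun i =>
    (hc (u i) fun n => ⟨-b (α^[n] a) i, by simp [u, Finset.sum_range_succ]⟩).exists
  choose t ht using h1
  have h2 : ∀ n, hb ^ n ∣ PowerSeries.mk (fun k => γ (α^[k] a)) - p n := by
    intro n
    rw [PowerSeries.X_pow_dvd_iff]
    intro m hm
    simp only [p, map_sub, map_sum, PowerSeries.coeff_mk, PowerSeries.coeff_mul_C,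
      PowerSeries.coeff_X_pow, ite_mul, one_mul, zero_mul]
    rw [Finset.sum_ite_eq, if_pos (Finset.mem_range.2 hm), sub_self]
  refine ⟨PowerSeries.mk fun k => γ (α^[k] a), ?_⟩
  obtain ⟨z, -, hz⟩ := hc (fun _ => 0) (fun n => by rw [sub_self]; exact Dv.zero n)
  have h0 : (0 : A) = z := hz 0 fun n => by rw [sub_self]; exact Dv.zero n
  have h3 : hb • a - hb • (PowerSeries.mk fun k => γ (α^[k] a)) • (1 : A) -
      ∑ i, (x i * t i - t i * x i) = z := hz _ fun n => by
    obtain ⟨q, hq⟩ := h2 n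
    have e1 : Dv n (∑ i, (x i * (t i - u i n) - (t i - u i n) * x i)) :=
      Dv.sum _ _ fun i _ => ((ht i n).mul_left _).sub ((ht i n).mul_right _)
    have e2 := ((Dv.pow_smul n (hb • α^[n] a)).sub ((Dv.pow_smul n (q • (1 : A))).smul hb)).sub e1
    convert e2 using 1
    rw [sub_zero, hu' n, sub_eq_iff_eq_add.1 hq]
    simp only [mul_sub, sub_mul, Finset.sum_sub_distrib, add_smul, smul_add, mul_smul]
    abel
  rw [← h0, sub_eq_zero] at h3
  rw [h3]
  exact Submodule.sum_mem _ fun i _ => Submodule.subset_span ⟨_, trivial, _, trivial, rfl⟩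

theorem rowHH : RowHH := by
  intro R A _ _ _ _ Q β _ hc hs hQ ι _ u hu ⟨n, r, hr⟩
  choose x hx using fun i => hs (u i)
  have key := hh_comm hc hs hQ x (by simpa only [hx] using hu)
  have h1 : hb ^ n • (1 : A) ∈ comms (Set.univ : Set A) := by
    obtain ⟨c, hc⟩ := key r
    have h2 := (comms (Set.univ : Set A)).add_mem hr
      ((comms (Set.univ : Set A)).smul_mem (hb ^ n) hc)
    have h3 : IsUnit (1 - hb * c) := PowerSeries.isUnit_iff_constantCoeff.2 (by simp)
    obtain ⟨v, hv⟩ := h3.exists_left_inv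
    have h4 := (comms (Set.univ : Set A)).smul_mem v h2
    convert h4 using 1
    rw [smul_sub, pow_succ, mul_smul, sub_add_sub_cancel, smul_smul, smul_smul, ← sub_smul,
      smul_smul]
    congr 1
    linear_combination (-hb ^ n) * hv
  have h2 : ∀ a : A, hb ^ (n + 1) • a ∈ comms (Set.univ : Set A) := by
    intro a
    obtain ⟨c, hc⟩ := key a
    have h3 := (comms (Set.univ : Set A)).add_mem
      ((comms (Set.univ : Set A)).smul_mem (hb ^ n) hc)
      ((comms (Set.univ : Set A)).smul_mem (hb * c) h1)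
    convert h3 using 1
    rw [smul_sub, pow_succ, mul_smul, mul_smul, smul_comm c, smul_comm hb (hb ^ n),
      sub_add_cancel]
  rw [HH0, Submodule.Quotient.subsingleton_iff, eq_top_iff]
  generalize hS : Submodule.span (Localization.Away (PowerSeries.X : ℂ⟦X⟧))
      {z : Localization.Away (PowerSeries.X : ℂ⟦X⟧) ⊗[ℂ⟦X⟧] A | ∃ a b, z = a * b - b * a} = S
  have h3 : ∀ w ∈ comms (Set.univ : Set A),
      (1 : Localization.Away (PowerSeries.X : ℂ⟦X⟧)) ⊗ₜ[ℂ⟦X⟧] w ∈ S := by
    intro w hw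
    induction hw using Submodule.span_induction with
    | mem w hw =>
      obtain ⟨a, -, b, -, rfl⟩ := hw
      rw [← hS]
      refine Submodule.subset_span ⟨1 ⊗ₜ a, 1 ⊗ₜ b, ?_⟩
      rw [Algebra.TensorProduct.tmul_mul_tmul, Algebra.TensorProduct.tmul_mul_tmul, mul_one,
        ← TensorProduct.tmul_sub]
    | zero => rw [TensorProduct.tmul_zero]; exact S.zero_mem
    | add a b _ _ ha hb' => rw [TensorProduct.tmul_add]; exact S.add_mem ha hb'
    | smul c a _ ha =>
      rw [TensorProduct.tmul_smul]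
      exact S.smul_of_tower_mem c ha
  rintro z -
  induction z using TensorProduct.induction_on with
  | zero => exact Submodule.zero_mem _
  | add z w hz hw => exact Submodule.add_mem _ hz hw
  | tmul k a =>
    have hu : IsUnit (algebraMap ℂ⟦X⟧ (Localization.Away (PowerSeries.X : ℂ⟦X⟧)) (hb ^ (n + 1))) := by
      rw [map_pow]
      exact (IsLocalization.Away.algebraMap_isUnit (PowerSeries.X : ℂ⟦X⟧)).pow _
    obtain ⟨v, hv⟩ := hu.exists_left_inv
    have e : k ⊗ₜ[ℂ⟦X⟧] a = (k * v) • ((1 : Localization.Away (PowerSeries.X : ℂ⟦X⟧)) ⊗ₜ[ℂ⟦X⟧]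
        (hb ^ (n + 1) • a)) := by
      rw [← TensorProduct.smul_tmul, TensorProduct.smul_tmul', Algebra.smul_def (hb ^ (n + 1)),
        mul_one, smul_eq_mul, mul_assoc, hv, mul_one]
    rw [e]
    exact S.smul_mem _ (h3 _ (h2 a))

end HH

theorem rowEXT : RowEXT := by
  intro R O C _ _ _ _ _ Q βR β ι tf hs hP hι hfr hQ
  have leib : ∀ f g h, β f (g * h) = g * β f h + h * β f g := by
    intro f g h
    obtain ⟨D, hD⟩ := hP.1 f
    rw [hD, hD, hD, D.leibniz, smul_eq_mul, smul_eq_mul]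
  have step : ∀ a : C, (∀ (b c : C) (g : R), Q.π b = ι g → a * b - b * a = hb • c →
      Q.π c = β (Q.π a) (Q.π b)) → ∀ b c : C, a * b - b * a = hb • c →
      Q.π c = β (Q.π a) (Q.π b) := by
    intro a ha b c hc
    obtain ⟨r, r', hr', hr⟩ := hfr (Q.π b)
    obtain ⟨b', hb'⟩ := hs (ι r')
    obtain ⟨c', hc'⟩ := Q.comm_dv a b'
    have h1 := ha b' c' r' hb' hc'
    have h2 := ha (b * b') (c * b' + b * c') r (by rw [map_mul, hb', hr]) (by
      rw [smul_add, ← smul_mul_assoc, ← mul_smul_comm, ← hc, ← hc']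
      noncomm_ring)
    rw [map_add, map_mul, map_mul, map_mul, leib, h1, hb'] at h2
    apply mul_right_cancel₀ hr'
    linear_combination h2
  have h1 : ∀ (a : C) (f : R), Q.π a = ι f → ∀ b c : C, a * b - b * a = hb • c →
      Q.π c = β (Q.π a) (Q.π b) := fun a f hf =>
    step a fun b c g hg hc => by rw [hQ a b c f g hf hg hc, hι, hf, hg]
  intro a
  refine step a fun b c g hg hc => ?_
  have h2 := h1 b g hg a (-c) (by rw [smul_neg, ← hc, neg_sub])
  rw [hP.2.1, ← h2, map_neg, neg_neg]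

end Pool.Agent.MP_86c931_ag.H39
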